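import Pool.Agent.R6.PD.Main

/-!
# A bipartite 3-degenerate graph which is not pandichotomous in the plane

`MP_8dd54d_co`, Q1, asks for every `d ≥ 3` whether there is a bipartite `d`-degenerate graph which
is not pandichotomous in `ℝ^(d-1)`. We show that the answer is yes for `d = 3`.

The graph has four layers: a large independent set, and then three times one new vertex for each
triple of vertices of the last layer and each of the eight short/long patterns on this triple.

Idea of the proof. In a large bounded set of points there is a thin triple `p, q, r`: the points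
are close to each other and `q` is nearly on the segment between `p` and `r`. The point `b` with
only `q` in distance at most one and the point `b'` with exactly `p` and `r` in distance at most one
are then nearly antipodal on the unit circle around `q`. By the patterns with three short edges all
such pairs have nearly the same midpoint, so all thin triples of the second layer are close to one
point `m`. By the pigeonhole principle there is a pair `b, b'` in the second layer with both
points close to `m`, a contradiction.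
-/

set_option autoImplicit false

namespace Pool.Agent.Results.MP_8dd54d_co.PlanarCase

open Pool.Agent.R6.PD

/-- A graph is `d`-degenerate if every nonempty subgraph has a vertex of degree at most `d`. -/
def Degenerate {V : Type} (G : SimpleGraph V) (d : ℕ) : Prop :=
  ∀ H : G.Subgraph, H.verts.Nonempty → ∃ v ∈ H.verts, (H.neighborSet v).ncard ≤ d

/-- A graph is pandichotomous in `ℝ^k` if for every set `S` of edges (the short edges) there are an
injective map `p` of the vertices to `ℝ^k` and a threshold `δ > 0` such that an edge has length at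
most `δ` if and only if it belongs to `S`. -/
def Pandichotomous {V : Type} (G : SimpleGraph V) (k : ℕ) : Prop :=
  ∀ S : Set (Sym2 V), S ⊆ G.edgeSet → ∃ (p : V → EuclideanSpace ℝ (Fin k)) (δ : ℝ),
    Function.Injective p ∧ 0 < δ ∧ ∀ u v, G.Adj u v → (dist (p u) (p v) ≤ δ ↔ s(u, v) ∈ S)

section layered

variable {V : Type} (back : V → Fin 3 → V) (sg : V → Fin 3 → Bool) (lev : V → ℕ)

/-- The graph in which the vertex `v` is joined to the vertices `back v j` of the lower layer. -/
def layered : SimpleGraph V where
  Adj u v := lev u ≠ lev v ∧ ((∃ j, back u j = v) ∨ ∃ j, back v j = u)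
  symm := ⟨fun _ _ h => ⟨h.1.symm, h.2.symm⟩⟩
  loopless := ⟨fun _ h => h.1 rfl⟩

/-- The short pairs. -/
def Sh (u v : V) : Prop :=
  (∃ j, back u j = v ∧ sg u j = true) ∨ ∃ j, back v j = u ∧ sg v j = true

theorem sh_symm : Std.Symm (Sh back sg) := ⟨fun _ _ h => h.symm⟩

/-- The short edges. -/
def shortEdges : Set (Sym2 V) :=
  {e | e ∈ (layered back lev).edgeSet ∧ e ∈ Sym2.fromRel (sh_symm back sg)}

variable {back sg lev} (h0 : ∀ v j, lev v = 0 → back v j = v)
  (h1 : ∀ v j, lev v ≠ 0 → lev (back v j) + 1 = lev v)

include h1 in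
theorem adj_back {v : V} {j : Fin 3} (hv : lev v ≠ 0) : (layered back lev).Adj v (back v j) :=
  ⟨fun h => by have := h1 v j hv; omega, Or.inl ⟨j, rfl⟩⟩

include h0 h1 in
theorem adj_cases {v w : V} (h : (layered back lev).Adj v w) :
    (lev w + 1 = lev v ∧ ∃ j, back v j = w) ∨ (lev v + 1 = lev w ∧ ∃ j, back w j = v) := by
  obtain ⟨hne, ⟨j, hj⟩ | ⟨j, hj⟩⟩ := h
  · left
    refine ⟨?_, j, hj⟩
    rw [← hj]
    apply h1
    intro h
    exact hne (by rw [← hj, h0 v j h])
  · right
    refine ⟨?_, j, hj⟩
    rw [← hj]
    apply h1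
    intro h
    exact hne (by rw [← hj, h0 w j h])

include h0 h1 in
theorem degenerate_layered [Finite V] : Degenerate (layered back lev) 3 := by
  classical
  intro H hH
  obtain ⟨v, hv, hmax⟩ := Set.exists_max_image H.verts lev (Set.toFinite _) hH
  refine ⟨v, hv, ?_⟩
  have hsub : H.neighborSet v ⊆ ((Finset.univ.image (back v) : Finset V) : Set V) := by
    intro w hw
    have hadj := H.adj_sub hw
    rcases adj_cases h0 h1 hadj with ⟨_, j, hj⟩ | ⟨hlt, _⟩
    · rw [Finset.mem_coe, Finset.mem_image]
      exact ⟨j, Finset.mem_univ _, hj⟩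
    · have := hmax w (H.edge_vert hw.symm)
      omega
  calc (H.neighborSet v).ncard ≤ ((Finset.univ.image (back v) : Finset V) : Set V).ncard :=
        Set.ncard_le_ncard hsub (Set.toFinite _)
    _ = (Finset.univ.image (back v)).card := Set.ncard_coe_finset _
    _ ≤ (Finset.univ : Finset (Fin 3)).card := Finset.card_image_le
    _ = 3 := by simp

include h0 h1 in
theorem bipartite_layered : (layered back lev).Colorable 2 := by
  have C : (layered back lev).Coloring Bool := SimpleGraph.Coloring.mk
    (fun v => decide (lev v % 2 = 0)) (by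
      intro v w h
      have : lev w + 1 = lev v ∨ lev v + 1 = lev w := by
        rcases adj_cases h0 h1 h with h | h
        · exact Or.inl h.1
        · exact Or.inr h.1
      intro he
      rw [decide_eq_decide] at he
      omega)
  have := C.colorable
  simpa using this

include h0 h1 in
theorem mem_short {v : V} {j : Fin 3} (hv : lev v ≠ 0) (hinj : Function.Injective (back v)) :
    s(v, back v j) ∈ shortEdges back sg lev ↔ sg v j = true := by
  constructor
  · rintro ⟨-, h⟩
    rw [Sym2.fromRel_prop] at h
    rcases h with ⟨i, hi, hs⟩ | ⟨i, hi, _⟩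
    · rw [← hinj hi]
      exact hs
    · exfalso
      have e1 := h1 v j hv
      by_cases hb : lev (back v j) = 0
      · rw [h0 _ i hb] at hi
        rw [hi] at hb
        exact hv hb
      · have e2 := h1 (back v j) i hb
        rw [hi] at e2
        omega
  · intro h
    exact ⟨adj_back h1 hv, by rw [Sym2.fromRel_prop]; exact Or.inl ⟨j, rfl, h⟩⟩

include h1 in
theorem mem_short' {v : V} {j : Fin 3} (hv : lev v ≠ 0) (h : sg v j = true) :
    s(v, back v j) ∈ shortEdges back sg lev :=
  ⟨adj_back h1 hv, by rw [Sym2.fromRel_prop]; exact Or.inl ⟨j, rfl, h⟩⟩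

include h0 h1 in
theorem not_pandichotomous
    (hext : ∀ l, l < 3 → ∀ (x : Fin 3 → V) (s : Fin 3 → Bool), (∀ j, lev (x j) = l) →
      ∃ v, lev v = l + 1 ∧ back v = x ∧ sg v = s)
    (a : Fin K1 × Fin L1 → V) (ha : Function.Injective a) (hal : ∀ x, lev (a x) = 0) :
    ¬ Pandichotomous (layered back lev) 2 := by
  intro hpan
  obtain ⟨p, δ, hp, hδ, hS⟩ := hpan (shortEdges back sg lev) (fun e he => he.1)
  have hdist : ∀ u v, dist (δ⁻¹ • p u) (δ⁻¹ • p v) ≤ 1 ↔ dist (p u) (p v) ≤ δ := by
    intro u v
    rw [dist_smul₀, Real.norm_of_nonneg (inv_nonneg.2 hδ.le), inv_mul_le_iff₀ hδ, mul_one]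
  refine no_placement back sg lev hext a ha hal (fun v => δ⁻¹ • p v) ?_ ?_ ?_
  · intro u v h
    exact hp (smul_right_injective _ (inv_ne_zero hδ.ne') h)
  · intro v j hv hinj
    rw [← D_le_one, hdist, hS _ _ (adj_back h1 hv), mem_short h0 h1 hv hinj]
  · intro v j hv hs
    rw [← D_le_one, hdist, hS _ _ (adj_back h1 hv)]
    exact mem_short' h1 hv hs

end layered

/-- The layers. -/
abbrev A0 := Fin K1 × Fin L1
/-- The second layer. -/
abbrev B1 := (Fin 3 → A0) × (Fin 3 → Bool)
/-- The third layer. -/
abbrev A2 := (Fin 3 → B1) × (Fin 3 → Bool)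
/-- The fourth layer. -/
abbrev B3 := (Fin 3 → A2) × (Fin 3 → Bool)
/-- The vertices. -/
abbrev Vert := A0 ⊕ (B1 ⊕ (A2 ⊕ B3))

/-- The neighbours in the lower layer. -/
def bk : Vert → Fin 3 → Vert
  | .inl a, _ => .inl a
  | .inr (.inl b), j => .inl (b.1 j)
  | .inr (.inr (.inl a)), j => .inr (.inl (a.1 j))
  | .inr (.inr (.inr b)), j => .inr (.inr (.inl (b.1 j)))

/-- The pattern. -/
def pt : Vert → Fin 3 → Bool
  | .inl _, _ => true
  | .inr (.inl b), j => b.2 j
  | .inr (.inr (.inl a)), j => a.2 j
  | .inr (.inr (.inr b)), j => b.2 j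

/-- The layer. -/
def lv : Vert → ℕ
  | .inl _ => 0
  | .inr (.inl _) => 1
  | .inr (.inr (.inl _)) => 2
  | .inr (.inr (.inr _)) => 3

theorem ext_vert : ∀ l, l < 3 → ∀ (x : Fin 3 → Vert) (s : Fin 3 → Bool), (∀ j, lv (x j) = l) →
    ∃ v, lv v = l + 1 ∧ bk v = x ∧ pt v = s := by
  intro l hl x s hx
  interval_cases l
  · have : ∀ j, ∃ a, x j = .inl a := by
      intro j
      have h := hx j
      rcases hxj : x j with a | a | a | a <;> rw [hxj] at h <;> simp [lv] at h
      exact ⟨a, rfl⟩
    choose y hy using this
    refine ⟨.inr (.inl (y, s)), rfl, ?_, rfl⟩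
    funext j
    rw [hy]
    rfl
  · have : ∀ j, ∃ a, x j = .inr (.inl a) := by
      intro j
      have h := hx j
      rcases hxj : x j with a | a | a | a <;> rw [hxj] at h <;> simp [lv] at h
      exact ⟨a, rfl⟩
    choose y hy using this
    refine ⟨.inr (.inr (.inl (y, s))), rfl, ?_, rfl⟩
    funext j
    rw [hy]
    rfl
  · have : ∀ j, ∃ a, x j = .inr (.inr (.inl a)) := by
      intro j
      have h := hx j
      rcases hxj : x j with a | a | a | a <;> rw [hxj] at h <;> simp [lv] at h
      exact ⟨a, rfl⟩
    choose y hy using this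
    refine ⟨.inr (.inr (.inr (y, s))), rfl, ?_, rfl⟩
    funext j
    rw [hy]
    rfl

/-- There is a finite bipartite `3`-degenerate graph which is not pandichotomous in the plane. -/
theorem result : ∃ (V : Type) (_ : Fintype V) (G : SimpleGraph V),
    G.Colorable 2 ∧ Degenerate G 3 ∧ ¬ Pandichotomous G 2 := by
  have h0 : ∀ v j, lv v = 0 → bk v j = v := by
    rintro (a | a | a | a) j h <;> simp [lv] at h <;> rfl
  have h1 : ∀ v j, lv v ≠ 0 → lv (bk v j) + 1 = lv v := by
    rintro (a | a | a | a) j h <;> simp [lv] at h <;> rfl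
  exact ⟨Vert, inferInstance, layered bk lv, bipartite_layered h0 h1, degenerate_layered h0 h1,
    not_pandichotomous h0 h1 ext_vert (fun x => .inl x) Sum.inl_injective (fun _ => rfl)⟩

end Pool.Agent.Results.MP_8dd54d_co.PlanarCase
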